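import Mathlib

set_option autoImplicit false

namespace Pool.Agent.Helper48.BinomGcd

/-- `G k` is the greatest common divisor of the binomial coefficients `C(jk, k)` for
`j = 2, 3, ..., k + 1`. -/
def G (k : ℕ) : ℕ := (Finset.Icc 2 (k + 1)).gcd fun j => (j * k).choose k

/-- `P k` is the largest prime power `p ^ e` with `p` a prime dividing `k` and `p ^ e` exactly
dividing `k` (the largest factor `p_i ^ e_i` in the prime factorisation of `k`). -/
def P (k : ℕ) : ℕ := k.primeFactors.sup fun p => p ^ k.factorization p

end Pool.Agent.Helper48.BinomGcd
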