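import Mathlib
import Pool.Agent.Helper48.BinomGcdDefs

set_option autoImplicit false

namespace Pool.Agent.Helper48.BinomGcd

open Finset

/-! ### Carries -/

lemma fact_choose {p : ℕ} (hp : p.Prime) (k m b : ℕ) (hb : Nat.log p (m * k + k) < b) :
    (((m + 1) * k).choose k).factorization p
      = #{i ∈ Ico 1 b | p ^ i ≤ k % p ^ i + (m * k) % p ^ i} := by
  have h := Nat.factorization_choose' (n := m * k) (k := k) hp hb
  rw [← h, add_mul, one_mul]

lemma G_dvd {k m : ℕ} (h1 : 1 ≤ m) (h2 : m ≤ k) : G k ∣ ((m + 1) * k).choose k := by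
  unfold G
  exact Finset.gcd_dvd (f := fun j => (j * k).choose k) (b := m + 1)
    (Finset.mem_Icc.mpr ⟨by omega, by omega⟩)

lemma choose_ne_zero (k m : ℕ) : ((m + 1) * k).choose k ≠ 0 := by
  apply (Nat.choose_pos _).ne'
  nlinarith [Nat.zero_le (m * k)]

lemma G_ne_zero {k : ℕ} (hk : 1 ≤ k) : G k ≠ 0 := by
  intro h
  have := G_dvd (k := k) (m := 1) le_rfl hk
  rw [h] at this
  exact choose_ne_zero k 1 (Nat.eq_zero_of_zero_dvd this)

lemma le_fact_G {k p a : ℕ} (hp : p.Prime) (hk : 1 ≤ k)
    (h : ∀ m, 1 ≤ m → m ≤ k → a ≤ (((m + 1) * k).choose k).factorization p) :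
    a ≤ (G k).factorization p := by
  rw [← hp.pow_dvd_iff_le_factorization (G_ne_zero hk)]
  unfold G
  apply Finset.dvd_gcd
  intro j hj
  rw [Finset.mem_Icc] at hj
  obtain ⟨m, rfl⟩ : ∃ m, j = m + 1 := ⟨j - 1, by omega⟩
  rw [hp.pow_dvd_iff_le_factorization (choose_ne_zero k m)]
  exact h m (by omega) (by omega)

lemma fact_G_le {k p m : ℕ} (h1 : 1 ≤ m) (h2 : m ≤ k) :
    (G k).factorization p ≤ (((m + 1) * k).choose k).factorization p := by
  have h := G_dvd h1 h2
  exact (Nat.factorization_le_iff_dvd (G_ne_zero (h1.trans h2)) (choose_ne_zero k m)).mpr h p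

/-! ### `G k ∣ k + 1` -/

lemma alt_sum (k : ℕ) :
    ∑ j ∈ range (k + 1 + 1), ((-1 : ℤ) ^ (k + 1 - j) * ((k + 1).choose j : ℤ))
      * ((j * k).choose k : ℤ) = 0 := by
  -- polynomial over ℚ
  let Q : Polynomial ℚ := ((descPochhammer ℚ k).comp (Polynomial.C (k : ℚ) * Polynomial.X))
  have hdeg : Q.natDegree < k + 1 := by
    have h1 : Q.natDegree ≤ (descPochhammer ℚ k).natDegree * (Polynomial.C (k : ℚ) * Polynomial.X).natDegree :=
      Polynomial.natDegree_comp_le
    have h2 : (Polynomial.C (k : ℚ) * Polynomial.X).natDegree ≤ 1 := (Polynomial.natDegree_C_mul_le _ _).trans Polynomial.natDegree_X_le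
    have h3 : (descPochhammer ℚ k).natDegree = k := descPochhammer_natDegree ℚ k
    rw [h3] at h1
    nlinarith
  have hz := Polynomial.fwdDiff_iter_eq_zero_of_degree_lt hdeg
  have hz0 := congrFun hz 0
  rw [fwdDiff_iter_eq_sum_shift] at hz0
  have heval : ∀ j : ℕ, Q.eval ((0 : ℚ) + j • (1 : ℚ)) = (k.factorial : ℚ) * ((j * k).choose k : ℚ) := by
    intro j
    have : Q.eval ((0 : ℚ) + j • (1 : ℚ)) = (descPochhammer ℚ k).eval (((j * k : ℕ)) : ℚ) := by
      simp only [Q, Polynomial.eval_comp, Polynomial.eval_mul, Polynomial.eval_C, Polynomial.eval_X]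
      congr 1
      push_cast
      simp [mul_comm]
    rw [this, descPochhammer_eval_eq_descFactorial, Nat.descFactorial_eq_factorial_mul_choose]
    push_cast
    ring
  simp only [heval, Pi.zero_apply] at hz0
  have hfac : (k.factorial : ℚ) ≠ 0 := by exact_mod_cast k.factorial_ne_zero
  have h4 : (k.factorial : ℚ) * (((∑ j ∈ range (k + 1 + 1), ((-1 : ℤ) ^ (k + 1 - j) * ((k + 1).choose j : ℤ))
      * ((j * k).choose k : ℤ) : ℤ)) : ℚ) = 0 := by
    rw [← hz0]
    push_cast
    rw [Finset.mul_sum]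
    apply Finset.sum_congr rfl
    intro j _
    rw [zsmul_eq_mul]
    push_cast
    ring
  rcases mul_eq_zero.mp h4 with h5 | h5
  · exact absurd h5 hfac
  · exact_mod_cast h5

lemma G_dvd_succ {k : ℕ} (hk : 1 ≤ k) : G k ∣ k + 1 := by
  have h := alt_sum k
  rw [Finset.sum_range_succ', Finset.sum_range_succ'] at h
  simp only [zero_add, zero_mul, one_mul, Nat.choose_self, Nat.choose_one_right, Nat.cast_one,
    mul_one, add_tsub_cancel_right] at h
  have h0 : Nat.choose 0 k = 0 := Nat.choose_eq_zero_of_lt (by omega)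
  rw [h0] at h
  have hdv : (G k : ℤ) ∣ ∑ x ∈ range k, (-1 : ℤ) ^ (k + 1 - (x + 1 + 1)) * ((k + 1).choose (x + 1 + 1) : ℤ) *
      (((x + 1 + 1) * k).choose k : ℤ) := by
    apply Finset.dvd_sum
    intro x hx
    rw [Finset.mem_range] at hx
    apply Dvd.dvd.mul_left
    have := G_dvd (k := k) (m := x + 1) (by omega) (by omega)
    exact_mod_cast this
  have h2 : (G k : ℤ) ∣ (-1 : ℤ) ^ k * ((k + 1 : ℕ) : ℤ) := by
    have h3 : (-1 : ℤ) ^ k * ((k + 1 : ℕ) : ℤ) = - ∑ x ∈ range k, (-1 : ℤ) ^ (k + 1 - (x + 1 + 1)) * ((k + 1).choose (x + 1 + 1) : ℤ) *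
      (((x + 1 + 1) * k).choose k : ℤ) := by
      simp only [Nat.cast_zero, mul_zero, add_zero] at h
      linarith
    rw [h3]
    exact (dvd_neg).mpr hdv
  have h4 : (G k : ℤ) ∣ ((k + 1 : ℕ) : ℤ) := by
    rcases Nat.even_or_odd k with he | ho
    · rw [he.neg_one_pow, one_mul] at h2; exact h2
    · rw [ho.neg_one_pow, neg_one_mul] at h2; exact (dvd_neg).mp h2
  exact_mod_cast h4


/-! ### Lower bound -/

/-- `k = p^e t - 1` with `t < p^(f+1)`; then every `C((m+1)k, k)`, `1 ≤ m ≤ k`, has `p`-adic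
valuation at least `e - f`. -/
lemma lower {p k e f : ℕ} (hp : p.Prime) (hk : 1 ≤ k) (he : p ^ e ∣ k + 1)
    (hf : k < p ^ (e + f + 1)) (m : ℕ) (h1 : 1 ≤ m) (h2 : m ≤ k) :
    e - f ≤ (((m + 1) * k).choose k).factorization p := by
  obtain ⟨t, ht⟩ := he
  have hm0 : m ≠ 0 := by omega
  set v := m.factorization p with hv
  obtain ⟨b, hb⟩ : ∃ b, b = max (Nat.log p (m * k + k)) (e + f + v) + 1 := ⟨_, rfl⟩
  have hb1 : Nat.log p (m * k + k) < b := by omega
  rw [fact_choose hp k m b hb1]
  have hpv : p ^ v ∣ m := Nat.ordProj_dvd m p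
  have hpnv : ¬ p ^ (v + 1) ∣ m := Nat.pow_succ_factorization_not_dvd hm0 hp
  have hsub : (Ioc v e) ∪ (Ioc (e + f) (e + v)) ⊆
      {i ∈ Ico 1 b | p ^ i ≤ k % p ^ i + (m * k) % p ^ i} := by
    intro i hi
    rw [Finset.mem_union, Finset.mem_Ioc, Finset.mem_Ioc] at hi
    rw [Finset.mem_filter, Finset.mem_Ico]
    refine ⟨⟨by omega, by omega⟩, ?_⟩
    have hpi : 0 < p ^ i := pow_pos hp.pos i
    rcases hi with ⟨hi1, hi2⟩ | ⟨hi1, hi2⟩
    · -- i ≤ e : digits of k are all p-1
      have hdvd : p ^ i ∣ k + 1 := (pow_dvd_pow p hi2).trans ⟨t, ht⟩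
      have hcop : Nat.Coprime (p ^ i) k := by
        have h3 : Nat.Coprime (k + 1) k := by simp
        exact Nat.Coprime.coprime_dvd_left hdvd h3
      have hkm : k % p ^ i = p ^ i - 1 := by
        obtain ⟨s, hs⟩ := hdvd
        have hs1 : 1 ≤ s := by
          rcases Nat.eq_zero_or_pos s with h | h
          · rw [h] at hs; omega
          · exact h
        obtain ⟨s', rfl⟩ : ∃ s', s = s' + 1 := ⟨s - 1, by omega⟩
        have : k = (p ^ i - 1) + p ^ i * s' := by
          have : k + 1 = p ^ i * s' + p ^ i := by rw [hs]; ring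
          omega
        rw [this, Nat.add_mul_mod_self_left]
        exact Nat.mod_eq_of_lt (by omega)
      have hne : (m * k) % p ^ i ≠ 0 := by
        intro h0
        have h3 : p ^ i ∣ m * k := Nat.dvd_of_mod_eq_zero h0
        have h4 : p ^ i ∣ m := hcop.dvd_of_dvd_mul_right h3
        exact hpnv ((pow_dvd_pow p (by omega)).trans h4)
      rw [hkm]
      have hne' : 1 ≤ (m * k) % p ^ i := Nat.pos_of_ne_zero hne
      generalize (m * k) % p ^ i = z at hne' ⊢
      omega
    · -- e + f < i ≤ e + v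
      have hki : k < p ^ i := lt_of_lt_of_le hf (Nat.pow_le_pow_right hp.pos (by omega))
      have hmi : m < p ^ i := lt_of_le_of_lt h2 hki
      rw [Nat.mod_eq_of_lt hki]
      have hdvd : p ^ i ∣ m * (k + 1) := by
        have h3 : p ^ (v + e) ∣ m * (k + 1) := by
          rw [pow_add]
          exact Nat.mul_dvd_mul hpv ⟨t, ht⟩
        exact (pow_dvd_pow p (by omega)).trans h3
      have hmk : (m * k) % p ^ i = p ^ i - m := by
        obtain ⟨s, hs⟩ := hdvd
        have hs1 : 1 ≤ s := by
          rcases Nat.eq_zero_or_pos s with h | h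
          · rw [h] at hs
            have : 0 < m * (k + 1) := by positivity
            omega
          · exact h
        obtain ⟨s', rfl⟩ : ∃ s', s = s' + 1 := ⟨s - 1, by omega⟩
        have h5 : m * k = (p ^ i - m) + p ^ i * s' := by
          have h6 : m * k + m = p ^ i * s' + p ^ i := by
            calc m * k + m = m * (k + 1) := by ring
              _ = p ^ i * (s' + 1) := hs
              _ = p ^ i * s' + p ^ i := by ring
          omega
        rw [h5, Nat.add_mul_mod_self_left]
        exact Nat.mod_eq_of_lt (by omega)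
      rw [hmk]
      omega
  have hdisj : Disjoint (Ioc v e) (Ioc (e + f) (e + v)) := by
    rw [Finset.disjoint_left]
    intro i hi hi'
    rw [Finset.mem_Ioc] at hi hi'
    omega
  have hcard := Finset.card_le_card hsub
  rw [Finset.card_union_of_disjoint hdisj, Nat.card_Ioc, Nat.card_Ioc] at hcard
  omega

/-! ### Upper bound, the case `1 ≤ f < e` -/

lemma mod_succ_aux {q X c j p : ℕ} : (q * X) % (q * p ^ j) = q * (X % p ^ j) ∧
    (c < q → (q * X + c) % (q * p ^ j) = q * (X % p ^ j) + c) := by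
  refine ⟨Nat.mul_mod_mul_left q X (p ^ j), ?_⟩
  intro hc
  rcases Nat.eq_zero_or_pos (p ^ j) with h0 | h0
  · rw [h0]; simp
  have h1 : X = p ^ j * (X / p ^ j) + X % p ^ j := (Nat.div_add_mod X (p ^ j)).symm
  have h2 : q * X + c = (q * (X % p ^ j) + c) + q * p ^ j * (X / p ^ j) := by
    conv_lhs => rw [h1]
    ring
  rw [h2, Nat.add_mul_mod_self_left]
  apply Nat.mod_eq_of_lt
  have h3 : X % p ^ j < p ^ j := Nat.mod_lt _ h0
  have h4 : q * (X % p ^ j + 1) ≤ q * p ^ j := Nat.mul_le_mul_left q h3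
  nlinarith

lemma upper1 {p k e f t : ℕ} (hp : p.Prime) (hkt : k + 1 = p ^ e * t) (hpt : ¬ p ∣ t)
    (hf : 1 ≤ f) (hfe : f < e) (ht1 : p ^ f ≤ t) (ht2 : t < p ^ (f + 1)) :
    ∃ m, 1 ≤ m ∧ m ≤ k ∧ (((m + 1) * k).choose k).factorization p ≤ e - f := by
  have hp0 := hp.pos
  have hp2 := hp.two_le
  set q := p ^ e with hq
  have hq0 : 0 < q := pow_pos hp0 e
  set m1 := t % p ^ f with hm1
  have hpf : 0 < p ^ f := pow_pos hp0 f
  have hm1_lt : m1 < p ^ f := Nat.mod_lt _ hpf
  have hpm1 : ¬ p ∣ m1 := by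
    intro h
    apply hpt
    have h1 : p ∣ p ^ f := dvd_pow_self p (by omega)
    exact (Nat.dvd_mod_iff h1).mp h
  have hm1_pos : 1 ≤ m1 := by
    rcases Nat.eq_zero_or_pos m1 with h | h
    · rw [h] at hpm1; exact absurd (dvd_zero p) hpm1
    · exact h
  have hm1_t : m1 + 1 ≤ t := by omega
  have htq : t ≤ q := ht2.le.trans (Nat.pow_le_pow_right hp0 (by omega))
  have hk1 : q * m1 + q ≤ k + 1 := by
    rw [hkt]
    calc q * m1 + q = q * (m1 + 1) := by ring
      _ ≤ q * t := Nat.mul_le_mul_left q hm1_t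
  refine ⟨q * m1, Nat.mul_pos hq0 hm1_pos, by omega, ?_⟩
  obtain ⟨b, hb⟩ : ∃ b, b = Nat.log p (q * m1 * k + k) + 1 := ⟨_, rfl⟩
  rw [fact_choose hp k (q * m1) b (by omega)]
  have hsub : {i ∈ Ico 1 b | p ^ i ≤ k % p ^ i + (q * m1 * k) % p ^ i} ⊆ Ioc (e + f) (e + e) := by
    intro i hi
    rw [Finset.mem_filter, Finset.mem_Ico] at hi
    obtain ⟨⟨hi1, hi2⟩, hi3⟩ := hi
    rw [Finset.mem_Ioc]
    have hpi : 0 < p ^ i := pow_pos hp0 i
    by_contra hcon
    have hcases : i ≤ e ∨ (e < i ∧ i ≤ e + f) ∨ e + e < i := by omega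
    rcases hcases with h | ⟨h, h'⟩ | h
    · -- i ≤ e
      have hd : p ^ i ∣ q * m1 * k := by
        rw [mul_assoc]; exact (pow_dvd_pow p h).trans (Dvd.intro _ rfl)
      have h0 : (q * m1 * k) % p ^ i = 0 := Nat.mod_eq_zero_of_dvd hd
      have := Nat.mod_lt k hpi
      omega
    · -- e < i ≤ e + f
      obtain ⟨j, rfl⟩ : ∃ j, i = e + j := ⟨i - e, by omega⟩
      have hj : j ≤ f := by omega
      have hj1 : 1 ≤ j := by omega
      have hpj : 0 < p ^ j := pow_pos hp0 j
      rw [pow_add, ← hq] at hi3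
      have hkq : k = q * (t - 1) + (q - 1) := by
        obtain ⟨t', rfl⟩ : ∃ t', t = t' + 1 := ⟨t - 1, by omega⟩
        have : k + 1 = q * t' + q := by rw [hkt]; ring
        simp only [add_tsub_cancel_right]
        omega
      have e1 : k % (q * p ^ j) = q * ((t - 1) % p ^ j) + (q - 1) := by
        conv_lhs => rw [hkq]
        exact (mod_succ_aux (q := q) (X := t - 1) (c := q - 1) (j := j) (p := p)).2 (by omega)
      have e2 : (q * m1 * k) % (q * p ^ j) = q * ((m1 * k) % p ^ j) := by
        rw [mul_assoc]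
        exact Nat.mul_mod_mul_left q (m1 * k) (p ^ j)
      rw [e1, e2] at hi3
      -- (m1 * k) % p^j + (t-1) % p^j = p^j - 1
      have htj : t % p ^ j ≠ 0 := by
        intro h0
        apply hpt
        exact (dvd_pow_self p (by omega)).trans (Nat.dvd_of_mod_eq_zero h0)
      have htj_lt : t % p ^ j < p ^ j := Nat.mod_lt _ hpj
      have e3 : (t - 1) % p ^ j = t % p ^ j - 1 := by
        have h1 : t = p ^ j * (t / p ^ j) + t % p ^ j := (Nat.div_add_mod t (p ^ j)).symm
        have htj' : 1 ≤ t % p ^ j := Nat.pos_of_ne_zero htj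
        have h2 : t - 1 = (t % p ^ j - 1) + p ^ j * (t / p ^ j) := by
          generalize t % p ^ j = z at *
          generalize p ^ j * (t / p ^ j) = y at *
          omega
        rw [h2, Nat.add_mul_mod_self_left]
        apply Nat.mod_eq_of_lt
        generalize t % p ^ j = z at *
        omega
      have e4 : (m1 * k) % p ^ j = p ^ j - t % p ^ j := by
        -- p^j divides m1 * k + t
        have hd : p ^ j ∣ m1 * k + t % p ^ j := by
          have hq' : p ^ j ∣ q := pow_dvd_pow p (by omega)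
          have hm1mod : t % p ^ j = m1 % p ^ j := by
            rw [hm1, Nat.mod_mod_of_dvd _ (pow_dvd_pow p hj)]
          have hd1 : p ^ j ∣ m1 * (k + 1) := by
            rw [hkt]
            exact (hq'.mul_right t).mul_left m1
          rw [hm1mod]
          have h2 : m1 * (k + 1) = (m1 * k + m1 % p ^ j) + p ^ j * (m1 / p ^ j) := by
            have h1 : m1 = p ^ j * (m1 / p ^ j) + m1 % p ^ j := (Nat.div_add_mod m1 (p ^ j)).symm
            calc m1 * (k + 1) = m1 * k + m1 := by ring
              _ = m1 * k + (p ^ j * (m1 / p ^ j) + m1 % p ^ j) := by rw [← h1]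
              _ = _ := by ring
          rw [h2] at hd1
          exact (Nat.dvd_add_left (Dvd.intro _ rfl)).mp hd1
        obtain ⟨s, hs⟩ := hd
        have htj' : 1 ≤ t % p ^ j := Nat.pos_of_ne_zero htj
        have hs1 : 1 ≤ s := by
          rcases Nat.eq_zero_or_pos s with h | h
          · rw [h] at hs
            generalize t % p ^ j = z at *
            omega
          · exact h
        obtain ⟨s', rfl⟩ : ∃ s', s = s' + 1 := ⟨s - 1, by omega⟩
        have h5 : m1 * k = (p ^ j - t % p ^ j) + p ^ j * s' := by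
          have h6 : p ^ j * (s' + 1) = p ^ j * s' + p ^ j := by ring
          rw [h6] at hs
          generalize t % p ^ j = z at *
          generalize p ^ j * s' = y at *
          generalize m1 * k = x at *
          omega
        rw [h5, Nat.add_mul_mod_self_left]
        apply Nat.mod_eq_of_lt
        generalize t % p ^ j = z at *
        omega
      rw [e3, e4] at hi3
      have h7 : q * (t % p ^ j - 1) + (q - 1) + q * (p ^ j - t % p ^ j) < q * p ^ j := by
        have h8 : q * (t % p ^ j - 1) + q * (p ^ j - t % p ^ j) = q * (p ^ j - 1) := by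
          rw [← Nat.mul_add]; congr 1
          have htj' : 1 ≤ t % p ^ j := Nat.pos_of_ne_zero htj
          generalize t % p ^ j = z at *
          omega
        have h9 : q * p ^ j = q * (p ^ j - 1) + q := by
          obtain ⟨z, hz⟩ : ∃ z, p ^ j = z + 1 := ⟨p ^ j - 1, by omega⟩
          rw [hz]; simp only [add_tsub_cancel_right]; ring
        omega
      omega
    · -- i > 2e
      obtain ⟨j, rfl⟩ : ∃ j, i = e + e + (j + 1) := ⟨i - (e + e) - 1, by omega⟩
      have hqq : p ^ (e + e + (j + 1)) = q * q * p ^ (j + 1) := by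
        rw [pow_add, pow_add]
      set M := p ^ (e + e + (j + 1)) with hM
      -- q*q*(t*m1) is not divisible by M
      have hnd : ¬ p ∣ t * m1 := fun h => (hp.dvd_mul.mp h).elim hpt hpm1
      have hkqq : k < q * q := by
        have : k + 1 ≤ q * q := by rw [hkt]; exact Nat.mul_le_mul_left q htq
        omega
      have hMk : k < M := by
        rw [hqq]
        calc k < q * q := hkqq
          _ = q * q * 1 := by ring
          _ ≤ q * q * p ^ (j + 1) := Nat.mul_le_mul_left _ (pow_pos hp0 _)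
      rw [Nat.mod_eq_of_lt hMk] at hi3
      -- let A = q*q*(t*m1); mk = A - q*m1 ; mk + k = A + (k - q*m1)
      have hA : q * m1 * k + q * m1 = q * q * (t * m1) := by
        calc q * m1 * k + q * m1 = q * m1 * (k + 1) := by ring
          _ = q * m1 * (q * t) := by rw [hkt]
          _ = _ := by ring
      -- quotient of mk by M
      set X := q * m1 * k with hX
      have hXd : X = M * (X / M) + X % M := (Nat.div_add_mod X M).symm
      -- the multiple Y = M * (X/M + 1) satisfies X < Y ≤ X + k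
      have hY1 : X < M * (X / M + 1) := by
        have := Nat.mod_lt X (show 0 < M from hpi)
        calc X = M * (X / M) + X % M := hXd
          _ < M * (X / M) + M := by omega
          _ = _ := by ring
      have hY2 : M * (X / M + 1) ≤ X + k := by
        calc M * (X / M + 1) = M * (X / M) + M := by ring
          _ ≤ M * (X / M) + (k + X % M) := by omega
          _ = X + k := by omega
      have hqm : q * m1 < q * q := by
        have : q * m1 ≤ k := by omega
        omega
      -- Y is a multiple of q*q, and so is A; |Y - A| < q*q so Y = A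
      have hYA : M * (X / M + 1) = q * q * (t * m1) := by
        have h10 : M * (X / M + 1) = q * q * (p ^ (j + 1) * (X / M + 1)) := by
          rw [hqq]; ring
        rw [h10]
        rw [h10] at hY1 hY2
        have hqq0 : 0 < q * q := Nat.mul_pos hq0 hq0
        set a := p ^ (j + 1) * (X / M + 1)
        set c := t * m1
        have h11 : q * q * a < q * q * (c + 1) := by
          calc q * q * a ≤ X + k := hY2
            _ < X + q * q := by omega
            _ ≤ q * q * c + q * q := by omega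
            _ = _ := by ring
        have h12 : q * q * c < q * q * (a + 1) := by
          calc q * q * c = X + q * m1 := hA.symm
            _ < q * q * a + q * q := by omega
            _ = _ := by ring
        have h13 := Nat.lt_of_mul_lt_mul_left h11
        have h14 := Nat.lt_of_mul_lt_mul_left h12
        have : a = c := by omega
        rw [this]
      apply hnd
      have h15 : q * q * (t * m1) = q * q * (p ^ (j + 1) * (X / M + 1)) := by
        rw [← hYA, hqq]; ring
      have h16 : t * m1 = p ^ (j + 1) * (X / M + 1) :=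
        Nat.eq_of_mul_eq_mul_left (Nat.mul_pos hq0 hq0) h15
      rw [h16]
      exact Dvd.dvd.mul_right (dvd_pow_self p (by omega)) _
  have hcard := Finset.card_le_card hsub
  rw [Nat.card_Ioc] at hcard
  omega


/-! ### Upper bound, the case `1 ≤ e ≤ f` -/

lemma mod_mod_le (x a b : ℕ) (p : ℕ) (hp : 0 < p) : (x % p ^ a) % p ^ b ≤ x % p ^ b := by
  rcases le_total a b with h | h
  · -- a ≤ b : value is x % p^a
    have h1 : (x % p ^ b) % p ^ a = x % p ^ a := Nat.mod_mod_of_dvd _ (pow_dvd_pow p h)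
    have h2 : x % p ^ a < p ^ b := lt_of_lt_of_le (Nat.mod_lt _ (pow_pos hp a))
      (Nat.pow_le_pow_right hp h)
    rw [Nat.mod_eq_of_lt h2, ← h1]
    exact Nat.mod_le _ _
  · rw [Nat.mod_mod_of_dvd _ (pow_dvd_pow p h)]

lemma exists_inv {p k f : ℕ} (hp : p.Prime) (hpk : p ∣ k + 1) :
    ∃ U : ℕ, p ^ (f + 1) ∣ U * k + 1 := by
  have hcop : Nat.Coprime k (p ^ (f + 1)) := by
    apply Nat.Coprime.pow_right
    rw [Nat.coprime_comm, hp.coprime_iff_not_dvd]
    intro h
    have h1 : p ∣ 1 := (Nat.dvd_add_right h).mp hpk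
    exact hp.one_lt.ne' (Nat.dvd_one.mp h1)
  have hN : NeZero (p ^ (f + 1)) := ⟨(pow_pos hp.pos _).ne'⟩
  refine ⟨(-(k : ZMod (p ^ (f + 1)))⁻¹).val, ?_⟩
  rw [← ZMod.natCast_eq_zero_iff]
  push_cast
  rw [ZMod.natCast_val, ZMod.cast_id', id]
  rw [neg_mul, mul_comm, ZMod.coe_mul_inv_eq_one k hcop]
  simp

lemma key_exists {p k e f t U : ℕ} (hp : p.Prime) (hkt : k + 1 = p ^ e * t) (hpt : ¬ p ∣ t)
    (he : 1 ≤ e) (hef : e ≤ f) (hU : p ^ (f + 1) ∣ U * k + 1) :
    ∃ r, r < p ^ f ∧ (∀ i, i ≤ f → (t - 1) % p ^ i + r % p ^ i < p ^ i) ∧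
      p ^ f - 1 - (t - 1) % p ^ f < (r * U) % p ^ (f + 1) := by
  have hp0 := hp.pos
  have hp2 := hp.two_le
  have ht0 : 1 ≤ t := by
    rcases Nat.eq_zero_or_pos t with h | h
    · rw [h] at hpt; exact absurd (dvd_zero p) hpt
    · exact h
  set N := p ^ (f + 1) with hN
  have hN0 : 0 < N := pow_pos hp0 _
  set K := t - 1 with hK
  have hpf : 0 < p ^ f := pow_pos hp0 f
  set K' := K % p ^ f with hK'
  have hK'lt : K' < p ^ f := Nat.mod_lt _ hpf
  set rs := p ^ f - 1 - K' with hrs
  have hrs_lt : rs < p ^ f := by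
    rw [hrs]
    exact lt_of_le_of_lt (Nat.sub_le _ _) (Nat.sub_lt hpf Nat.one_pos)
  have hN2 : N = p * p ^ f := by rw [hN, pow_succ]; ring
  have hN3 : 2 * p ^ f ≤ N := by rw [hN2]; exact Nat.mul_le_mul_right _ hp2
  -- complement
  have hcomp : ∀ i, i ≤ f → K % p ^ i + rs % p ^ i = p ^ i - 1 := by
    intro i hi
    have hpi : 0 < p ^ i := pow_pos hp0 i
    have h1 : K % p ^ i = K' % p ^ i := by
      rw [hK', Nat.mod_mod_of_dvd _ (pow_dvd_pow p hi)]
    rw [h1]
    have h2 : p ^ i ∣ K' + rs + 1 := by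
      have : K' + rs + 1 = p ^ f := by omega
      rw [this]; exact pow_dvd_pow p hi
    have h3 : p ^ i ∣ K' % p ^ i + rs % p ^ i + 1 := by
      rw [Nat.dvd_iff_mod_eq_zero] at h2 ⊢
      rw [← h2]
      exact ((Nat.mod_modEq K' (p ^ i)).add (Nat.mod_modEq rs (p ^ i))).add_right 1
    have h4 : K' % p ^ i < p ^ i := Nat.mod_lt _ hpi
    have h5 : rs % p ^ i < p ^ i := Nat.mod_lt _ hpi
    obtain ⟨s, hs⟩ := h3
    have hs1 : s = 1 := by
      generalize K' % p ^ i = x at *
      generalize rs % p ^ i = y at *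
      have hs2 : s < 2 := by
        by_contra hcon
        have : p ^ i * 2 ≤ p ^ i * s := Nat.mul_le_mul_left _ (by omega)
        omega
      have hs3 : s ≠ 0 := by
        rintro rfl
        omega
      omega
    rw [hs1, mul_one] at hs
    omega
  have hD : ∀ r, (∀ i, i ≤ f → r % p ^ i ≤ rs % p ^ i) →
      ∀ i, i ≤ f → K % p ^ i + r % p ^ i < p ^ i := by
    intro r hr i hi
    have h1 := hr i hi
    have h2 := hcomp i hi
    have hpi : 0 < p ^ i := pow_pos hp0 i
    generalize K % p ^ i = x at *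
    generalize rs % p ^ i = y at *
    generalize r % p ^ i = z at *
    omega
  by_contra hcon
  push Not at hcon
  have H : ∀ r, r < p ^ f → (∀ i, i ≤ f → r % p ^ i ≤ rs % p ^ i) → (r * U) % N ≤ rs :=
    fun r h1 h2 => hcon r h1 (hD r h2)
  -- U ≡ 1 mod p
  have hpk : (p : ℤ) ∣ (k : ℤ) + 1 := by
    have : p ∣ k + 1 := by rw [hkt]; exact (dvd_pow_self p (by omega)).mul_right t
    exact_mod_cast this
  have hUp : (p : ℤ) ∣ (U : ℤ) - 1 := by
    have h1 : (p : ℤ) ∣ (U : ℤ) * k + 1 := by
      have : p ∣ U * k + 1 := (dvd_pow_self p (by omega)).trans hU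
      exact_mod_cast this
    have h2 : (U : ℤ) - 1 = U * (k + 1) - (U * k + 1) := by ring
    rw [h2]
    exact dvd_sub (hpk.mul_left _) h1
  have hUmod : U % p = 1 := by
    have h1 : (1 : ℤ) ≡ U [ZMOD p] := (Int.modEq_iff_dvd).mpr hUp
    have h2 : (1 : ℕ) ≡ U [MOD p] := by exact_mod_cast h1
    have h3 : U % p = 1 % p := h2.symm
    rw [h3]
    exact Nat.mod_eq_of_lt hp.one_lt
  -- U ≢ 1 mod N
  have hUN : ¬ (N : ℤ) ∣ (U : ℤ) - 1 := by
    intro h
    have h1 : (N : ℤ) ∣ (k : ℤ) + 1 := by
      have h2 : (N : ℤ) ∣ (U : ℤ) * k + 1 := by exact_mod_cast hU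
      have h3 : (k : ℤ) + 1 = (U * k + 1) - (U - 1) * k := by ring
      rw [h3]
      exact dvd_sub h2 (h.mul_right _)
    have h2 : N ∣ k + 1 := by exact_mod_cast h1
    have h3 : p ^ (e + 1) ∣ p ^ e * t := by
      rw [← hkt]
      exact (pow_dvd_pow p (by omega)).trans h2
    rw [pow_succ] at h3
    exact hpt (Nat.dvd_of_mul_dvd_mul_left (pow_pos hp0 e) h3)
  -- lower bound for c * p^j
  have hlow : ∀ j c, j ≤ f → c < p → p ^ j * c ≤ (p ^ j * c * U) % N := by
    intro j c hj hc
    have h1 : N = p ^ j * p ^ (f + 1 - j) := by rw [hN, ← pow_add]; congr 1; omega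
    rw [h1, mul_assoc, Nat.mul_mod_mul_left]
    apply Nat.mul_le_mul_left
    have h2 : ((c * U) % p ^ (f + 1 - j)) % p = c := by
      rw [Nat.mod_mod_of_dvd _ (dvd_pow_self p (by omega)), Nat.mul_mod, hUmod, mul_one,
        Nat.mod_mod, Nat.mod_eq_of_lt hc]
    calc c = ((c * U) % p ^ (f + 1 - j)) % p := h2.symm
      _ ≤ _ := Nat.mod_le _ _
  -- the induction
  have hind : ∀ j, 1 ≤ j → j ≤ f → rs % p ^ j < (rs % p ^ j * U) % N := by
    intro j hj1
    induction j, hj1 using Nat.le_induction with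
    | base =>
      intro _
      rw [pow_one]
      have hc := hcomp 1 (by omega)
      rw [pow_one] at hc
      have hKp : K % p ≠ p - 1 := by
        intro h
        apply hpt
        have h1 : t = K + 1 := by omega
        have h2 : K = p * (K / p) + K % p := (Nat.div_add_mod K p).symm
        rw [h1]
        refine ⟨K / p + 1, ?_⟩
        rw [h] at h2
        have h3 : p * (K / p + 1) = p * (K / p) + p := by ring
        omega
      have hKlt : K % p < p := Nat.mod_lt _ hp0
      have h1 : 1 ≤ rs % p := by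
        generalize K % p = x at *
        generalize rs % p = y at *
        omega
      have h2 : rs % p < p := Nat.mod_lt _ hp0
      have h3 := hlow 0 (rs % p) (by omega) h2
      rw [pow_zero, one_mul] at h3
      apply lt_of_le_of_ne h3
      intro heq
      apply hUN
      have hcop : IsCoprime (N : ℤ) ((rs % p : ℕ) : ℤ) := by
        rw [Nat.isCoprime_iff_coprime, hN]
        apply Nat.Coprime.pow_left
        rw [hp.coprime_iff_not_dvd]
        intro h
        have := Nat.le_of_dvd (by omega) h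
        omega
      apply hcop.dvd_of_dvd_mul_left
      have h4 : (rs % p) ≡ rs % p * U [MOD N] := by
        have h5 : (rs % p * U) % N ≡ rs % p * U [MOD N] := Nat.mod_modEq _ _
        rw [← heq] at h5
        exact h5
      have h6 : ((rs % p : ℕ) : ℤ) ≡ ((rs % p * U : ℕ) : ℤ) [ZMOD N] := by exact_mod_cast h4
      have h7 := (Int.modEq_iff_dvd).mp h6
      push_cast at h7 ⊢
      have h8 : ((rs : ℤ) % p) * ((U : ℤ) - 1) = (rs : ℤ) % p * U - (rs : ℤ) % p := by ring
      rw [h8]
      exact h7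
    | succ j hj1 ih =>
      intro hj2
      have ih' := ih (by omega)
      have hsplit : rs % p ^ (j + 1) = rs % p ^ j + p ^ j * (rs / p ^ j % p) := Nat.mod_pow_succ
      set c := rs / p ^ j % p with hc
      have hcp : c < p := Nat.mod_lt _ hp0
      have hb := hlow j c (by omega) hcp
      have hr1 : (rs % p ^ j * U) % N ≤ rs := by
        apply H
        · exact lt_of_le_of_lt (Nat.mod_le _ _) hrs_lt
        · intro i _
          exact mod_mod_le rs j i p hp0
      have hpjle : p ^ j * c ≤ rs % p ^ (j + 1) := by rw [hsplit]; exact Nat.le_add_left _ _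
      have hr2 : (p ^ j * c * U) % N ≤ rs := by
        apply H
        · exact lt_of_le_of_lt (hpjle.trans (Nat.mod_le _ _)) hrs_lt
        · intro i hi
          rcases le_or_gt i j with hij | hij
          · have : (p ^ j * c) % p ^ i = 0 :=
              Nat.mod_eq_zero_of_dvd ((pow_dvd_pow p hij).mul_right c)
            rw [this]; exact Nat.zero_le _
          · calc (p ^ j * c) % p ^ i ≤ p ^ j * c := Nat.mod_le _ _
              _ ≤ rs % p ^ (j + 1) := hpjle
              _ = (rs % p ^ i) % p ^ (j + 1) :=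
                  (Nat.mod_mod_of_dvd _ (pow_dvd_pow p (by omega))).symm
              _ ≤ rs % p ^ i := Nat.mod_le _ _
      have hadd : (rs % p ^ (j + 1) * U) % N = (rs % p ^ j * U) % N + (p ^ j * c * U) % N := by
        rw [hsplit, add_mul, Nat.add_mod]
        apply Nat.mod_eq_of_lt
        generalize (rs % p ^ j * U) % N = x at *
        generalize (p ^ j * c * U) % N = y at *
        omega
      rw [hadd, hsplit]
      generalize (rs % p ^ j * U) % N = x at *
      generalize (p ^ j * c * U) % N = y at *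
      generalize (rs % p ^ j) = z at *
      omega
  have hfin := hind f (by omega) le_rfl
  rw [Nat.mod_eq_of_lt hrs_lt] at hfin
  have := H rs hrs_lt (fun i _ => le_rfl)
  omega

lemma upper2 {p k e f t : ℕ} (hp : p.Prime) (hkt : k + 1 = p ^ e * t) (hpt : ¬ p ∣ t)
    (he : 1 ≤ e) (hef : e ≤ f) (ht1 : p ^ f ≤ t) (ht2 : t < p ^ (f + 1)) :
    ∃ m, 1 ≤ m ∧ m ≤ k ∧ (((m + 1) * k).choose k).factorization p = 0 := by
  have hp0 := hp.pos
  have hp2 := hp.two_le
  have hpk : p ∣ k + 1 := by rw [hkt]; exact (dvd_pow_self p (by omega)).mul_right t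
  obtain ⟨U, hU⟩ := exists_inv (f := f) hp hpk
  obtain ⟨r, hrlt, hrD, hrg⟩ := key_exists hp hkt hpt he hef hU
  set q := p ^ e with hq
  have hq0 : 0 < q := pow_pos hp0 e
  set N := p ^ (f + 1) with hN
  have hN0 : 0 < N := pow_pos hp0 _
  set K := t - 1 with hK
  have hpf : 0 < p ^ f := pow_pos hp0 f
  have hN2 : N = p * p ^ f := by rw [hN, pow_succ]; ring
  have htne : t ≠ p ^ f := by
    intro h
    apply hpt
    rw [h]
    exact dvd_pow_self p (by omega)
  have hKf : p ^ f ≤ K := by omega
  have hKN : K < N := by omega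
  set g := (r * U) % N with hg
  have hgN : g < N := Nat.mod_lt _ hN0
  set Gf := g / p ^ f with hGf
  set Kf := K / p ^ f with hKfdef
  have hGdm : p ^ f * Gf + g % p ^ f = g := Nat.div_add_mod g (p ^ f)
  have hKdm : p ^ f * Kf + K % p ^ f = K := Nat.div_add_mod K (p ^ f)
  have hgm : g % p ^ f < p ^ f := Nat.mod_lt _ hpf
  have hKm : K % p ^ f < p ^ f := Nat.mod_lt _ hpf
  have hGfp : Gf < p := by
    rw [hGf]; apply Nat.div_lt_of_lt_mul; rw [mul_comm, ← hN2]; exact hgN
  have hKfp : Kf < p := by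
    rw [hKfdef]; apply Nat.div_lt_of_lt_mul; rw [mul_comm, ← hN2]; exact hKN
  set c := Kf - Gf with hc
  set m1 := (p ^ f - g % p ^ f) + p ^ f * c with hm1
  obtain ⟨d, hd⟩ : ∃ d, d + 1 + c + Gf = p := by
    refine ⟨p - 1 - c - Gf, ?_⟩
    clear_value Kf Gf
    omega
  have hm1pos : 1 ≤ m1 := by
    have : 1 ≤ p ^ f - g % p ^ f := by
      generalize g % p ^ f = x at *
      omega
    omega
  have hm1K : m1 ≤ K := by
    rcases le_or_gt Kf Gf with h | h
    · have hc0 : c = 0 := by omega
      rw [hm1, hc0, mul_zero, add_zero]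
      exact (Nat.sub_le _ _).trans hKf
    · have hc1 : Kf = c + Gf := by omega
      have h1 : p ^ f * Kf = p ^ f * c + p ^ f * Gf := by rw [hc1]; ring
      rw [hm1]
      generalize g % p ^ f = x at *
      generalize K % p ^ f = y at *
      generalize p ^ f * c = z at *
      generalize p ^ f * Gf = w at *
      generalize p ^ f * Kf = v at *
      omega
  -- the congruence
  have hcong : (m1 * k) % N = r + p ^ f * d := by
    have hlt : r + p ^ f * d < N := by
      have h1 : p ^ f * (d + 1) ≤ p ^ f * p := by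
        apply Nat.mul_le_mul_left
        clear_value Kf Gf
        omega
      have h2 : p ^ f * (d + 1) = p ^ f * d + p ^ f := by ring
      rw [hN2, mul_comm p]
      omega
    have hz : (N : ℤ) ∣ (m1 * k : ℤ) - (r + p ^ f * d) := by
      -- N | g k + r
      have h1 : (N : ℤ) ∣ (g : ℤ) * k + r := by
        have h2 : (N : ℤ) ∣ (r : ℤ) * (U * k + 1) := by
          apply Dvd.dvd.mul_left
          exact_mod_cast hU
        have h3 : (N : ℤ) ∣ (r * U : ℤ) - g := by
          have h4 : g ≡ r * U [MOD N] := Nat.mod_modEq _ _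
          have h5 : (g : ℤ) ≡ ((r * U : ℕ) : ℤ) [ZMOD N] := by exact_mod_cast h4
          have h6 := (Int.modEq_iff_dvd).mp h5
          push_cast at h6
          exact h6
        have h7 : (g : ℤ) * k + r = r * (U * k + 1) - (r * U - g) * k := by ring
        rw [h7]
        exact dvd_sub h2 (h3.mul_right _)
      have h2 : (N : ℤ) ∣ (p : ℤ) ^ f * (1 + c + Gf) * (k + 1) := by
        have h3 : (p : ℤ) ∣ (k : ℤ) + 1 := by exact_mod_cast hpk
        obtain ⟨s, hs⟩ := h3
        rw [hs, hN2]
        push_cast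
        exact ⟨(1 + c + Gf) * s, by ring⟩
      have hm1g : (m1 : ℤ) + g = (p : ℤ) ^ f * (1 + c + Gf) := by
        have h3 : m1 + g = p ^ f * (1 + c + Gf) := by
          have h4 : p ^ f * (1 + c + Gf) = p ^ f + p ^ f * c + p ^ f * Gf := by ring
          rw [h4, hm1]
          generalize g % p ^ f = x at *
          generalize p ^ f * c = z at *
          generalize p ^ f * Gf = w at *
          omega
        exact_mod_cast h3
      have hN' : (N : ℤ) = (p : ℤ) ^ f * (1 + c + Gf) + (p : ℤ) ^ f * d := by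
        have h3 : N = p ^ f * (1 + c + Gf) + p ^ f * d := by
          rw [hN2, ← Nat.mul_add, mul_comm]
          congr 1
          omega
        exact_mod_cast h3
      have h8 : (m1 * k : ℤ) - (r + p ^ f * d)
          = (p : ℤ) ^ f * (1 + c + Gf) * (k + 1) - (g * k + r) - N := by
        have h9 : (m1 : ℤ) = (p : ℤ) ^ f * (1 + c + Gf) - g := by linarith
        rw [hN', h9]
        ring
      rw [h8]
      exact dvd_sub (dvd_sub h2 h1) (dvd_refl _)
    have h1 : (r + p ^ f * d : ℕ) ≡ m1 * k [MOD N] := by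
      have h2 : (((r + p ^ f * d : ℕ)) : ℤ) ≡ ((m1 * k : ℕ) : ℤ) [ZMOD N] := by
        rw [Int.modEq_iff_dvd]
        push_cast
        exact hz
      exact_mod_cast h2
    have h3 : (r + p ^ f * d) % N = (m1 * k) % N := h1
    rw [← h3]
    exact Nat.mod_eq_of_lt hlt
  -- no carries in the top part
  have htop : K + (m1 * k) % N < N := by
    rw [hcong]
    have h0 := hrD f le_rfl
    rw [Nat.mod_eq_of_lt hrlt] at h0
    have h1 : Kf + d + 1 ≤ p := by omega
    have h2 : p ^ f * (Kf + d + 1) ≤ p ^ f * p := Nat.mul_le_mul_left _ h1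
    have h3 : p ^ f * (Kf + d + 1) = p ^ f * Kf + p ^ f * d + p ^ f := by ring
    rw [hN2, mul_comm p]
    generalize K % p ^ f = y at *
    generalize p ^ f * d = z at *
    generalize p ^ f * Kf = v at *
    generalize p ^ f * p = u at *
    omega
  have hnc : ∀ j, K % p ^ j + (m1 * k) % p ^ j < p ^ j := by
    intro j
    have hpj : 0 < p ^ j := pow_pos hp0 j
    rcases le_or_gt j f with hj | hj
    · have h1 : (m1 * k) % p ^ j = r % p ^ j := by
        have h2 : (m1 * k) % p ^ j = ((m1 * k) % N) % p ^ j := by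
          rw [Nat.mod_mod_of_dvd _ (pow_dvd_pow p (by omega))]
        rw [h2, hcong]
        have h3 : p ^ j ∣ p ^ f * d := (pow_dvd_pow p hj).mul_right d
        obtain ⟨s, hs⟩ := h3
        rw [hs, Nat.add_mul_mod_self_left]
      rw [h1]
      exact hrD j hj
    · have hNj : N ∣ p ^ j := pow_dvd_pow p (by omega)
      obtain ⟨s, hs⟩ := hNj
      have hKj : K < p ^ j := lt_of_lt_of_le hKN (Nat.le_of_dvd hpj ⟨s, hs⟩)
      rw [Nat.mod_eq_of_lt hKj]
      set X := m1 * k with hX
      have h1 : (X % p ^ j) % N = X % N := Nat.mod_mod_of_dvd _ ⟨s, hs⟩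
      have h2 : N * (X % p ^ j / N) + (X % p ^ j) % N = X % p ^ j := Nat.div_add_mod _ _
      have h3 : X % p ^ j < p ^ j := Nat.mod_lt _ hpj
      have h4 : X % p ^ j / N < s := by
        apply Nat.div_lt_of_lt_mul
        rw [← hs]; exact h3
      have h5 : N * (X % p ^ j / N + 1) ≤ N * s := Nat.mul_le_mul_left _ h4
      have h6 : N * (X % p ^ j / N + 1) = N * (X % p ^ j / N) + N := by ring
      rw [h1] at h2
      rw [← hs] at h5
      generalize X % N = x at *
      generalize X % p ^ j = y at *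
      generalize N * (y / N) = z at *
      omega
  -- conclusion
  have hkq : k = q * K + (q - 1) := by
    obtain ⟨t', rfl⟩ : ∃ t', t = t' + 1 := ⟨t - 1, by omega⟩
    have h1 : k + 1 = q * t' + q := by rw [hkt]; ring
    have h2 : K = t' := by omega
    rw [h2]
    omega
  refine ⟨q * m1, Nat.mul_pos hq0 hm1pos, ?_, ?_⟩
  · have : q * m1 ≤ q * K := Nat.mul_le_mul_left q hm1K
    omega
  obtain ⟨b, hb⟩ : ∃ b, b = Nat.log p (q * m1 * k + k) + 1 := ⟨_, rfl⟩
  rw [fact_choose hp k (q * m1) b (by omega), Finset.card_eq_zero, Finset.filter_eq_empty_iff]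
  intro i _ hcar
  have hpi : 0 < p ^ i := pow_pos hp0 i
  rcases le_or_gt i e with h | h
  · have hd : p ^ i ∣ q * m1 * k := by
      rw [mul_assoc]; exact (pow_dvd_pow p h).trans (Dvd.intro _ rfl)
    have h0 : (q * m1 * k) % p ^ i = 0 := Nat.mod_eq_zero_of_dvd hd
    have := Nat.mod_lt k hpi
    omega
  · obtain ⟨j, rfl⟩ : ∃ j, i = e + j := ⟨i - e, by omega⟩
    rw [pow_add, ← hq] at hcar
    have e1 : k % (q * p ^ j) = q * (K % p ^ j) + (q - 1) := by
      conv_lhs => rw [hkq]
      exact (mod_succ_aux (q := q) (X := K) (c := q - 1) (j := j) (p := p)).2 (by omega)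
    have e2 : (q * m1 * k) % (q * p ^ j) = q * ((m1 * k) % p ^ j) := by
      rw [mul_assoc]
      exact Nat.mul_mod_mul_left q (m1 * k) (p ^ j)
    rw [e1, e2] at hcar
    have h1 := hnc j
    have h2 : q * (K % p ^ j + (m1 * k) % p ^ j + 1) ≤ q * p ^ j := Nat.mul_le_mul_left q h1
    have h3 : q * (K % p ^ j + (m1 * k) % p ^ j + 1) = q * (K % p ^ j) + q * ((m1 * k) % p ^ j) + q := by
      ring
    omega


/-! ### The exact valuation -/

/-- The exact `p`-adic valuation of `G k`. -/
theorem factorization_G {k p : ℕ} (hk : 1 ≤ k) (hp : p.Prime) :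
    (G k).factorization p = 2 * (k + 1).factorization p - Nat.log p (k + 1) := by
  have hk1 : k + 1 ≠ 0 := by omega
  set e := (k + 1).factorization p with he
  obtain ⟨t, ht⟩ : p ^ e ∣ k + 1 := Nat.ordProj_dvd (k + 1) p
  have hpt : ¬ p ∣ t := by
    intro ⟨s, hs⟩
    have h1 : p ^ (e + 1) ∣ k + 1 := ⟨s, by rw [ht, hs, pow_succ]; ring⟩
    exact Nat.pow_succ_factorization_not_dvd hk1 hp h1
  have ht0 : t ≠ 0 := by
    rintro rfl
    simp at ht
  set f := Nat.log p t with hf
  have hf1 : p ^ f ≤ t := Nat.pow_log_le_self p ht0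
  have hf2 : t < p ^ (f + 1) := Nat.lt_pow_succ_log_self hp.one_lt t
  have hlog : Nat.log p (k + 1) = e + f := by
    rw [Nat.log_eq_iff (Or.inr ⟨hp.one_lt, hk1⟩), ht]
    constructor
    · rw [pow_add]; exact Nat.mul_le_mul_left _ hf1
    · rw [show e + f + 1 = e + (f + 1) from rfl, pow_add p e (f + 1)]
      exact Nat.mul_lt_mul_of_pos_left hf2 (pow_pos hp.pos e)
  have hle : (G k).factorization p ≤ e :=
    (Nat.factorization_le_iff_dvd (G_ne_zero hk) hk1).mpr (G_dvd_succ hk) p
  rw [hlog]
  rcases Nat.eq_zero_or_pos e with he0 | he0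
  · omega
  rcases le_or_gt e f with hef | hef
  · obtain ⟨m, h1, h2, h3⟩ := upper2 hp ht hpt he0 hef hf1 hf2
    have h4 := fact_G_le (p := p) h1 h2
    omega
  · have hlow : e - f ≤ (G k).factorization p := by
      apply le_fact_G hp hk
      intro m h1 h2
      apply lower hp hk ⟨t, ht⟩ _ m h1 h2
      have h5 : k + 1 < p ^ (e + f + 1) := by
        rw [← hlog]; exact Nat.lt_pow_succ_log_self hp.one_lt _
      omega
    rcases Nat.eq_zero_or_pos f with hf0 | hf0
    · omega
    · obtain ⟨m, h1, h2, h3⟩ := upper1 hp ht hpt hf0 hef hf1 hf2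
      have h4 := fact_G_le (p := p) h1 h2
      omega

theorem G_eq_one_iff {k : ℕ} (hk : 1 ≤ k) : G k = 1 ↔ P (k + 1) ^ 2 < k + 1 := by
  have hk1 : k + 1 ≠ 0 := by omega
  have h1 : G k = 1 ↔ ∀ p, p.Prime → (p ^ (k + 1).factorization p) ^ 2 ≤ k + 1 := by
    constructor
    · intro h p hp
      have h2 := factorization_G hk hp
      rw [h, Nat.factorization_one, Finsupp.coe_zero, Pi.zero_apply] at h2
      rw [← pow_mul, mul_comm]
      exact Nat.pow_le_of_le_log hk1 (by omega)
    · intro h
      apply Nat.eq_of_factorization_eq (G_ne_zero hk) one_ne_zero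
      intro p
      rw [Nat.factorization_one, Finsupp.coe_zero, Pi.zero_apply]
      by_cases hp : p.Prime
      · rw [factorization_G hk hp]
        have h3 := h p hp
        rw [← pow_mul, mul_comm] at h3
        have h4 := Nat.le_log_of_pow_le hp.one_lt h3
        omega
      · exact Nat.factorization_eq_zero_of_not_prime _ hp
  rw [h1]
  constructor
  · intro h
    obtain ⟨p, hpm, hpP⟩ : ∃ p ∈ (k + 1).primeFactors, P (k + 1) = p ^ (k + 1).factorization p := by
      have hne : (k + 1).primeFactors.Nonempty := by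
        rw [Nat.nonempty_primeFactors]; omega
      exact Finset.exists_mem_eq_sup _ hne _
    have hp := Nat.prime_of_mem_primeFactors hpm
    have hpd := Nat.dvd_of_mem_primeFactors hpm
    rw [hpP]
    apply lt_of_le_of_ne (h p hp)
    intro heq
    have h5 : (k + 1).factorization p = 2 * (k + 1).factorization p := by
      conv_lhs => rw [← heq]
      rw [← pow_mul, Nat.factorization_pow, Finsupp.smul_apply, hp.factorization_self,
        smul_eq_mul, mul_one, mul_comm]
    have h6 : 1 ≤ (k + 1).factorization p :=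
      (hp.dvd_iff_one_le_factorization hk1).mp hpd
    omega
  · intro h p hp
    by_cases hpd : p ∣ k + 1
    · have hpm : p ∈ (k + 1).primeFactors := Nat.mem_primeFactors.mpr ⟨hp, hpd, hk1⟩
      have h7 : p ^ (k + 1).factorization p ≤ P (k + 1) :=
        Finset.le_sup (f := fun p => p ^ (k + 1).factorization p) hpm
      calc (p ^ (k + 1).factorization p) ^ 2 ≤ P (k + 1) ^ 2 := Nat.pow_le_pow_left h7 2
        _ ≤ k + 1 := h.le
    · rw [Nat.factorization_eq_zero_of_not_dvd hpd, pow_zero, one_pow]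
      omega

end Pool.Agent.Helper48.BinomGcd
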